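import Pool.Agent.Helper86.WB.B
import Pool.Agent.Helper41.DV.H2b
import Pool.Agent.Helper83.WB.En

/-!
# Project DV, UP half with blocks (note 2645): forms of (A) and (B) for `δ → 0`
-/

open Finset RP4 Filter Topology MeasureTheory
open GF (Pl Cc)
open GF.Lat (Xd win Xd_eq cc_box)

namespace WB

open DV SW

/-- a cell with mass contains a point of the support near its center -/
lemma mass_cell {δ : ℝ} (hδ : 0 < δ) {f : Pl → ℝ} {x : V} (hm : mass δ f x ≠ 0) :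
    ∃ y, f y ≠ 0 ∧ dist (pt δ x) y ≤ δ := by
  by_contra hc
  push Not at hc
  apply hm
  unfold mass
  refine setIntegral_eq_zero_of_forall_eq_zero fun y hy => ?_
  by_contra hf
  have h1 := hc y hf
  have h2 : dist (pt δ x) y ≤ δ := by
    obtain ⟨⟨a1, a2⟩, b1, b2⟩ := hy
    rw [Prod.dist_eq, max_le_iff, Real.dist_eq, Real.dist_eq, abs_le, abs_le]
    unfold pt
    constructor <;> constructor <;> simp only <;> nlinarith
  linarith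

/-- a support at distance more than `s` from `p`, with a margin -/
lemma exists_margin {f : Pl → ℝ} (hf : Cc f) {p : Pl} {s : ℝ}
    (h : ∀ z ∈ tsupport f, s < dist z p) : ∃ a > 0, ∀ z, f z ≠ 0 → s + a ≤ dist z p := by
  have hK : IsCompact (tsupport f) := hf.supp
  rcases (tsupport f).eq_empty_or_nonempty with h0 | h0
  · refine ⟨1, one_pos, fun z hz => ?_⟩
    have h1 : z ∈ tsupport f := subset_tsupport f hz
    rw [h0] at h1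
    exact absurd h1 (Set.notMem_empty z)
  · obtain ⟨z₀, hz₀, hmin⟩ := hK.exists_isMinOn h0
      ((continuous_id.dist continuous_const).continuousOn (s := tsupport f) (f := fun z => dist z p))
    refine ⟨dist z₀ p - s, sub_pos.2 (h z₀ hz₀), fun z hz => ?_⟩
    have h1 := hmin (subset_tsupport f hz)
    have h2 : dist z₀ p ≤ dist z p := h1
    linarith

/-- the lattice support is eventually outside of the ball -/
lemma ls_out {n : ℕ} {f : Fin n → Pl → ℝ} (hf : ∀ i, Cc (f i)) {p : Pl} {s : ℝ}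
    (h : ∀ i, ∀ z ∈ tsupport (f i), s < dist z p) :
    ∀ᶠ δ in 𝓝[>] (0 : ℝ), ls δ f ⊆ Out δ p s := by
  have key : ∀ i, ∀ᶠ δ in 𝓝[>] (0 : ℝ), ∀ x, mass δ (f i) x ≠ 0 → x ∈ Out δ p s := by
    intro i
    obtain ⟨a, ha, h1⟩ := exists_margin (hf i) (h i)
    have h2 : ∀ᶠ δ in 𝓝[>] (0 : ℝ), δ < a := mem_nhdsWithin_of_mem_nhds (gt_mem_nhds ha)
    have hpos : ∀ᶠ δ in 𝓝[>] (0 : ℝ), 0 < δ := self_mem_nhdsWithin
    filter_upwards [h2, hpos] with δ h3 h4 x hx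
    obtain ⟨y, hy, hxy⟩ := mass_cell h4 hx
    have h5 := h1 y hy
    have h6 := dist_triangle y (pt δ x) p
    rw [dist_comm] at hxy
    show s ≤ dist (pt δ x) p
    linarith
  filter_upwards [eventually_all.2 key] with δ h1
  rintro x ⟨i, hx⟩
  exact h1 i x hx

/-- one box for a finite family -/
lemma box_fam {n : ℕ} {f : Fin n → Pl → ℝ} (hf : ∀ i, Cc (f i)) :
    ∃ R : ℝ, 0 ≤ R ∧ ∀ i z, f i z ≠ 0 → |z.1| ≤ R ∧ |z.2| ≤ R := by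
  choose R hR h using fun i => cc_box (hf i)
  refine ⟨∑ i, R i, Finset.sum_nonneg fun i _ => (hR i).le, fun i z hz => ?_⟩
  have h1 : R i ≤ ∑ i, R i := Finset.single_le_sum (fun i _ => (hR i).le) (Finset.mem_univ i)
  exact ⟨(h i z hz).1.trans h1, (h i z hz).2.trans h1⟩

lemma ev_margin {T : Finset (Pl × ℝ × ℝ)} (hT : ∀ q ∈ T, q.2.1 < q.2.2) :
    ∀ᶠ δ in 𝓝[>] (0 : ℝ), ∀ q ∈ T, q.2.1 + δ < q.2.2 := by
  rw [Filter.eventually_all_finset]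
  intro q hq
  have h1 : ∀ᶠ δ in 𝓝[>] (0 : ℝ), δ < q.2.2 - q.2.1 :=
    mem_nhdsWithin_of_mem_nhds (gt_mem_nhds (sub_pos.2 (hT q hq)))
  filter_upwards [h1] with δ h2
  linarith

/-- (B) for `δ → 0`, an even number of factors -/
theorem ev_qt_le (hd : Deloc) {l : Filter ℝ} (hl : l ≤ 𝓝[>] 0) {n : ℕ} (hn : Even n)
    {T T' : Finset (Pl × ℝ × ℝ)}
    (hp : ∀ᶠ δ in l, ∃ s, Pn s (cx (iw (EB T δ)))) (hpos : ∀ᶠ δ in l, 0 < MR (iw (EB T δ)))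
    (hp' : ∀ᶠ δ in l, ∃ s, Pn s (cx (iw (EB T' δ)))) (hpos' : ∀ᶠ δ in l, 0 < MR (iw (EB T' δ)))
    (hTT : ∀ q' ∈ T', ∃ q ∈ T, q'.1 = q.1 ∧ q'.2.2 ≤ q.2.1) (hT : ∀ q ∈ T, q.2.1 < q.2.2)
    (hT' : ∀ q ∈ T', q.2.1 < q.2.2) {f : Fin n → Pl → ℝ} (hf : ∀ i, Cc (f i))
    (hf0 : ∀ i z, 0 ≤ f i z) (hA : ∀ q ∈ T, ∀ i, ∀ z ∈ tsupport (f i), q.2.2 < dist z q.1) :
    ∀ᶠ δ in l, qt (fun δ => iw (EB T δ)) (fun δ h => ∏ i, Xd δ (f i) h) δ ≤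
      qt (fun δ => iw (EB T' δ)) (fun δ h => ∏ i, Xd δ (f i) h) δ := by
  obtain ⟨R, hR, hbox⟩ := box_fam hf
  have h1 : ∀ᶠ δ in l, ∀ q ∈ T, ls δ f ⊆ Out δ q.1 q.2.2 :=
    hl ((Filter.eventually_all_finset T).2 fun q hq => ls_out hf (hA q hq))
  have hδ : ∀ᶠ δ in l, 0 < δ := hl self_mem_nhdsWithin
  filter_upwards [h1, hδ, hl (ev_margin hT'), hp, hpos, hp', hpos'] with δ h1 h2 h3 h4 h5 h6 h7
  obtain ⟨s, hs⟩ := h4
  obtain ⟨t, ht⟩ := h6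
  exact qt_EB_le hd hn hs h5 ht h7 hTT hT h3 h1 h2 hR hbox hf0

/-- (B) for two factors -/
theorem ev_qt_le_two (hd : Deloc) {l : Filter ℝ} (hl : l ≤ 𝓝[>] 0)
    {T T' : Finset (Pl × ℝ × ℝ)}
    (hp : ∀ᶠ δ in l, ∃ s, Pn s (cx (iw (EB T δ)))) (hpos : ∀ᶠ δ in l, 0 < MR (iw (EB T δ)))
    (hp' : ∀ᶠ δ in l, ∃ s, Pn s (cx (iw (EB T' δ)))) (hpos' : ∀ᶠ δ in l, 0 < MR (iw (EB T' δ)))
    (hTT : ∀ q' ∈ T', ∃ q ∈ T, q'.1 = q.1 ∧ q'.2.2 ≤ q.2.1) (hT : ∀ q ∈ T, q.2.1 < q.2.2)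
    (hT' : ∀ q ∈ T', q.2.1 < q.2.2) {f η : Pl → ℝ} (hf : Cc f) (hη : Cc η)
    (hf0 : ∀ z, 0 ≤ f z) (hη0 : ∀ z, 0 ≤ η z)
    (hA : ∀ q ∈ T, ∀ z ∈ tsupport f, q.2.2 < dist z q.1)
    (hB : ∀ q ∈ T, ∀ z ∈ tsupport η, q.2.2 < dist z q.1) :
    ∀ᶠ δ in l, qt (fun δ => iw (EB T δ)) (fun δ h => Xd δ f h * Xd δ η h) δ ≤
      qt (fun δ => iw (EB T' δ)) (fun δ h => Xd δ f h * Xd δ η h) δ := by
  have h := ev_qt_le hd hl (n := 2) (by decide) hp hpos hp' hpos' hTT hT hT' (f := ![f, η])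
    (fun i => by fin_cases i; exacts [hf, hη]) (fun i z => by fin_cases i; exacts [hf0 z, hη0 z])
    fun q hq i => by fin_cases i; exacts [hA q hq, hB q hq]
  simpa only [Fin.prod_univ_two, Matrix.cons_val_zero, Matrix.cons_val_one] using h

/-- (B) for even powers -/
theorem ev_qt_le_pow (hd : Deloc) {l : Filter ℝ} (hl : l ≤ 𝓝[>] 0) (n : ℕ)
    {T T' : Finset (Pl × ℝ × ℝ)}
    (hp : ∀ᶠ δ in l, ∃ s, Pn s (cx (iw (EB T δ)))) (hpos : ∀ᶠ δ in l, 0 < MR (iw (EB T δ)))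
    (hp' : ∀ᶠ δ in l, ∃ s, Pn s (cx (iw (EB T' δ)))) (hpos' : ∀ᶠ δ in l, 0 < MR (iw (EB T' δ)))
    (hTT : ∀ q' ∈ T', ∃ q ∈ T, q'.1 = q.1 ∧ q'.2.2 ≤ q.2.1) (hT : ∀ q ∈ T, q.2.1 < q.2.2)
    (hT' : ∀ q ∈ T', q.2.1 < q.2.2) {f : Pl → ℝ} (hf : Cc f) (hf0 : ∀ z, 0 ≤ f z)
    (hA : ∀ q ∈ T, ∀ z ∈ tsupport f, q.2.2 < dist z q.1) :
    ∀ᶠ δ in l, qt (fun δ => iw (EB T δ)) (fun δ h => Xd δ f h ^ (2 * n)) δ ≤
      qt (fun δ => iw (EB T' δ)) (fun δ h => Xd δ f h ^ (2 * n)) δ := by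
  have h := ev_qt_le hd hl (n := 2 * n) (even_two_mul n) hp hpos hp' hpos' hTT hT hT'
    (f := fun _ => f) (fun _ => hf) (fun _ => hf0) fun q hq _ => hA q hq
  simpa only [Finset.prod_const, Finset.card_univ, Fintype.card_fin] using h

/-- helper83's weight is a family of blocks -/
lemma WE_eq_EB (y₁ y₂ : Pl) (r s : ℝ) (Z : Finset (Pl × ℝ × ℝ)) :
    ∃ T : Finset (Pl × ℝ × ℝ), (∀ q, q ∈ T ↔ q = (y₁, r, s) ∨ q = (y₂, r, s) ∨ q ∈ Z) ∧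
      ∀ δ, WE y₁ y₂ r s Z δ = EB T δ := by
  classical
  refine ⟨insert (y₁, r, s) (insert (y₂, r, s) Z), fun q => by
    rw [Finset.mem_insert, Finset.mem_insert], fun δ => ?_⟩
  funext g
  unfold WE EB
  rw [eq_iff_iff, Finset.forall_mem_insert, Finset.forall_mem_insert]

/-- even moments are nonnegative -/
lemma qt_pow_nonneg (hd : Deloc) {t : Finset V} {E : ℝ → (V → ℤ) → Prop} {δ R : ℝ}
    (hp : Pn t (cx (iw (E δ)))) (hδ : 0 < δ) (hR : 0 ≤ R) {f : Pl → ℝ}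
    (hf : ∀ z, f z ≠ 0 → |z.1| ≤ R ∧ |z.2| ≤ R) (n : ℕ) :
    0 ≤ qt (fun δ => iw (E δ)) (fun δ h => Xd δ f h ^ (2 * n)) δ := by
  classical
  have hP : PR t (ic (E δ)) := hp
  have h1 : PR (t ∪ win δ R) fun g => ic (E δ) g * Xd δ f g ^ (2 * n) := by
    refine (hP.mono Finset.subset_union_left).mul fun g g' h => ?_
    have h2 : Xd δ f g = Xd δ f g' := by
      rw [Xd_lo hδ hR hf, Xd_lo hδ hR hf]
      exact lo_congr fun x hx => h x (Finset.mem_union_right _ hx)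
    rw [h2]
  have h2 : 0 ≤ Mr fun g => ic (E δ) g * Xd δ f g ^ (2 * n) := by
    refine Mr_nonneg hd h1 fun g => mul_nonneg (ic_nonneg _ _) ?_
    rw [pow_mul]
    positivity
  have h3 : 0 ≤ Mr (ic (E δ)) := Mr_nonneg hd hP fun g => ic_nonneg _ _
  have h4 : MR (fun h => Xd δ f h ^ (2 * n) * iw (E δ) h) =
      Mr fun g => ic (E δ) g * Xd δ f g ^ (2 * n) := by
    unfold MR Mr cx
    congr 2
    funext g
    show ((Xd δ f g ^ (2 * n) * ic (E δ) g : ℝ) : ℂ) = ((ic (E δ) g * Xd δ f g ^ (2 * n) : ℝ) : ℂ)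
    rw [mul_comm]
  unfold qt
  rw [h4]
  exact div_nonneg h2 h3

/-- (A) for `δ → 0`: moments of the field in the domains `D δ` and in the floating measure with the
blocks `T`; `P`: the centres of the blocks in the domain, `r` a bound for their outer radii; the other
blocks are outside of the domains.  The constant depends only on `f`, `n` and the size of the domains -/
theorem md_le_EB (hd : Deloc) {f : Pl → ℝ} (hf : Cc f) (hf0 : ∀ z, 0 ≤ f z) (n : ℕ) (R₀ : ℝ) :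
    ∃ C : ℝ, 0 ≤ C ∧ ∀ D : ℝ → Finset V,
      (∀ᶠ δ in 𝓝[>] (0 : ℝ), BdryPar (D δ) 0 ∧ ∀ x ∈ D δ, ‖pt δ x‖ ≤ R₀) →
      ∀ l : Filter ℝ, l ≤ 𝓝[>] 0 → ∀ (T : Finset (Pl × ℝ × ℝ)) (P : Finset Pl) (r R' θ η : ℝ),
      (∀ᶠ δ in l, ∃ s, Pn s (cx (iw (EB T δ)))) → (∀ᶠ δ in l, 0 < MR (iw (EB T δ))) →
      (∀ q ∈ T, q.2.1 < q.2.2) → r < R' → (∀ᶠ δ in l, ∀ x, mass δ f x ≠ 0 → x ∈ D δ) →
      (∀ p ∈ P, ∀ z ∈ tsupport f, R' < dist z p) →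
      (∀ q ∈ T, (q.1 ∈ P ∧ q.2.2 ≤ r) ∨ ∀ᶠ δ in l, ∀ x ∈ D δ, q.2.2 ≤ dist (pt δ x) q.1) →
      (∀ᶠ δ in l, ∑ p ∈ P, pr (Om (D δ)) (fun g => ¬ Bk 0 δ p r R' g) ≤ θ) → 0 < η →
      ∀ᶠ δ in l, GF.md D f n δ ≤
        qt (fun δ => iw (EB T δ)) (fun δ h => Xd δ f h ^ (2 * n)) δ + (C * √θ + η) := by
  obtain ⟨B, hB⟩ := box_moments hf R₀ (2 * n)
  obtain ⟨R, hR, hbox⟩ := cc_box hf
  refine ⟨√B, Real.sqrt_nonneg _, fun D hD l hl T P r R' θ η hp hpos hT hr hfD hfP hTP hθ hη => ?_⟩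
  have hcl := hl ((Metric.tendsto_nhds.1 (md_close hf R₀ n hD)) η hη)
  have hδ : ∀ᶠ δ in l, 0 < δ := hl self_mem_nhdsWithin
  have hout : ∀ᶠ δ in l, ∀ p ∈ P, ls δ (fun _ : Fin (2 * n) => f) ⊆ Out δ p R' :=
    hl ((Filter.eventually_all_finset P).2 fun p hp => ls_out (fun _ => hf) fun _ => hfP p hp)
  have hTP' : ∀ᶠ δ in l, ∀ q ∈ T, (q.1 ∈ P ∧ q.2.2 ≤ r) ∨ (D δ : Set V) ⊆ Out δ q.1 q.2.2 := by
    rw [Filter.eventually_all_finset]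
    intro q hq
    rcases hTP q hq with h | h
    · exact Eventually.of_forall fun δ => Or.inl h
    · filter_upwards [h] with δ h1
      exact Or.inr fun x hx => h1 x (Finset.mem_coe.1 hx)
  filter_upwards [hcl, hδ, hout, hTP', hl (ev_margin hT), hp, hpos, hfD, hθ, hl hB, hl hD] with δ h1 h2
    h3 h4 h5 h6 h7 h8 h9 h10 h11
  obtain ⟨s, hs⟩ := h6
  have e1 : ∀ h : V → ℤ, ∏ _i : Fin (2 * n), Xd δ f h = Xd δ f h ^ (2 * n) := fun h => by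
    rw [Finset.prod_const, Finset.card_univ, Fintype.card_fin]
  have hq : 0 ≤ qt (fun δ => iw (EB T δ)) (fun δ h => ∏ _i : Fin (2 * n), Xd δ f h) δ := by
    have h := qt_pow_nonneg (E := EB T) hd hs h2 hR.le hbox n
    have e2 : qt (fun δ => iw (EB T δ)) (fun δ h => ∏ _i : Fin (2 * n), Xd δ f h) δ =
        qt (fun δ => iw (EB T δ)) (fun δ h => Xd δ f h ^ (2 * n)) δ := by
      unfold qt
      simp only [e1]
    rw [e2]
    exact h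
  have key := avg_le_qt_EB hd (even_two_mul n) (D δ) hs h7 h5 h2 hR.le (f := fun _ => f)
    (fun _ => hbox) (fun _ => hf0) hq hr (fun x hx => Finset.mem_coe.2 (h8 x hx.choose_spec)) h3 h4
  have e3 : avg (Om (D δ)) (fun h => (∏ _i : Fin (2 * n), Xd δ f h) ^ 2) =
      avg (Om (D δ)) (fun h => Xd δ f h ^ (2 * (2 * n))) := by
    unfold avg
    congr 1
    refine Finset.sum_congr rfl fun h _ => ?_
    show (∏ _i : Fin (2 * n), Xd δ f h) ^ 2 = Xd δ f h ^ (2 * (2 * n))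
    rw [e1, ← pow_mul]
    congr 1
    ring
  have e4 : qt (fun δ => iw (EB T δ)) (fun δ h => ∏ _i : Fin (2 * n), Xd δ f h) δ =
      qt (fun δ => iw (EB T δ)) (fun δ h => Xd δ f h ^ (2 * n)) δ := by
    unfold qt
    simp only [e1]
  have e5 : avg (Om (D δ)) (fun h => ∏ _i : Fin (2 * n), Xd δ f h) =
      avg (Om (D δ)) (fun h => Xd δ f h ^ (2 * n)) := by
    simp only [e1]
  rw [e3, e4, e5] at key
  have h12 := h10 (D δ) h11.1 h11.2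
  have h13 : √(avg (Om (D δ)) fun h => Xd δ f h ^ (2 * (2 * n))) *
      √(∑ p ∈ P, pr (Om (D δ)) fun g => ¬ Bk 0 δ p r R' g) ≤ √B * √θ :=
    mul_le_mul (Real.sqrt_le_sqrt h12) (Real.sqrt_le_sqrt h9) (Real.sqrt_nonneg _)
      (Real.sqrt_nonneg _)
  rw [Real.dist_eq, sub_zero] at h1
  have h14 := (abs_lt.1 h1).2
  linarith

end WB
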