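import Pool.Agent.Helper78.SW.Qt
import Pool.Agent.Helper94.BR.Mo

/-!
# Project DV, UP half with blocks (note 2645): comparison of environments

`Neg F`: in every flat domain `F` is negatively correlated with every decreasing event.
(A) `avg_le_qt`: the even moments of the field in a flat domain are bounded by those of a floating
measure with weight `E`, up to the probability that a cluster joins the dependence set of `E` and the
support.
(B) `qt_le_qt`: comparison of two floating measures.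
-/

open Finset RP4 Filter Topology
open GF (Pl)
open GF.Lat (Xd win Xd_eq)

namespace WB

open DV SW

/-- negative correlation with the decreasing events in every flat domain -/
def Neg (F : (V → ℤ) → ℝ) : Prop := ∀ (U : Finset V) (E : (V → ℤ) → Prop), Dec E →
  ∑ g ∈ Om U, ic E g * F g ≤ avg (Om U) F * ∑ g ∈ Om U, ic E g

lemma conn_nz {g : V → ℤ} {x y : V} (h : Conn g x y) : g y ≠ 0 := by
  obtain ⟨h1, h2⟩ := h
  induction h2 with
  | refl => exact h1
  | tail _ huv _ => exact huv.2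

/-- the sum of the heights over a decreasing event, one product -/
lemma neg_prod {n : ℕ} (p : Fin n → V) : Neg fun h => ∏ i, (h (p i) : ℝ) := by
  classical
  intro U E hE
  have e1 : ∀ G : (V → ℤ) → ℝ, ∑ g ∈ Om U, ic E g * G g = ∑ g ∈ (Om U).filter E, G g := by
    intro G
    rw [Finset.sum_filter]
    refine Finset.sum_congr rfl fun g _ => ?_
    unfold ic
    split_ifs <;> simp
  have hA : ∀ g, g ∈ Om U ↔ IsHom U 0 g ∧ ∀ v ∈ bdry U, g v = 0 := fun g => mem_Om
  have h1 : ∑ g ∈ (Om U).filter E, ∏ i, (g (p i) : ℝ) = ∑ g ∈ (Om U).filter E, clm p g :=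
    sum_prod_filter hA hE.abs (fun g hg _ i v hv hc => conn_nz hc ((hA g).1 hg |>.2 v hv))
      (A' := (Om U).filter E) fun g => Finset.mem_filter
  have h2 : avg (Om U) (fun h => ∏ i, (h (p i) : ℝ)) = avg (Om U) (clm p) := by
    unfold avg
    exact congrArg (· / _) (prod_clm U 0 (bdry U) (Finset.Subset.refl _) p)
  have h3 := avg_mul_dec (fam_Zs (p := 0) (Finset.Subset.refl (bdry U))) (lat_Tb U 0 _ 0) hE
    (clm_incF p)
  rw [e1, h1, h2]
  rcases (Om U).eq_empty_or_nonempty with h | h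
  · rw [h]
    simp
  have hc : (0 : ℝ) < (Om U).card := by exact_mod_cast h.card_pos
  have h4 : avg (Om U) (fun g => if E g then clm p g else 0) =
      (∑ g ∈ (Om U).filter E, clm p g) / (Om U).card := by
    unfold avg
    rw [Finset.sum_filter]
  have h5 : pr (Om U) E = (∑ g ∈ Om U, ic E g) / (Om U).card := by
    rw [pr_eq, Finset.card_filter]
    push_cast
    congr 1
  have h6 : (∑ g ∈ (Om U).filter E, clm p g) / (Om U).card ≤
      (∑ g ∈ Om U, ic E g) / (Om U).card * avg (Om U) (clm p) := by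
    rw [← h4, ← h5]
    exact h3
  rw [div_mul_eq_mul_div, div_le_div_iff_of_pos_right hc] at h6
  linarith

/-- sums with nonnegative coefficients -/
lemma Neg.sum {ι : Type*} (T : Finset ι) {c : ι → ℝ} (hc : ∀ i ∈ T, 0 ≤ c i)
    {F : ι → (V → ℤ) → ℝ} (hF : ∀ i ∈ T, Neg (F i)) : Neg fun h => ∑ i ∈ T, c i * F i h := by
  intro U E hE
  have e1 : ∑ g ∈ Om U, ic E g * ∑ i ∈ T, c i * F i g =
      ∑ i ∈ T, c i * ∑ g ∈ Om U, ic E g * F i g := by
    simp only [Finset.mul_sum]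
    rw [Finset.sum_comm]
    refine Finset.sum_congr rfl fun i _ => Finset.sum_congr rfl fun g _ => by ring
  have e2 : avg (Om U) (fun h => ∑ i ∈ T, c i * F i h) = ∑ i ∈ T, c i * avg (Om U) (F i) := by
    unfold avg
    rw [Finset.sum_comm, Finset.sum_div]
    refine Finset.sum_congr rfl fun i _ => ?_
    rw [← Finset.mul_sum, mul_div_assoc]
  rw [e1, e2, Finset.sum_mul]
  refine Finset.sum_le_sum fun i hi => ?_
  rw [mul_assoc]
  exact mul_le_mul_of_nonneg_left (hF i hi U E hE) (hc i hi)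

/-- products of linear observables with nonnegative masses -/
theorem neg_lo {n : ℕ} (s : Finset V) {m : Fin n → V → ℝ} (hm : ∀ i x, 0 ≤ m i x) :
    Neg fun h => ∏ i, lo s (m i) h := by
  have h1 : (fun h : V → ℤ => ∏ i, lo s (m i) h) = fun h =>
      ∑ p ∈ Fintype.piFinset (fun _ : Fin n => s), (∏ i, m i (p i)) * ∏ i, (h (p i) : ℝ) := by
    funext h
    exact prod_lo s m h
  rw [h1]
  exact Neg.sum _ (fun p _ => Finset.prod_nonneg fun i _ => hm i _) fun p _ => neg_prod p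

/-- exchange of the parts off `R`: sums -/
lemma sum_glu {S S' : Finset (V → ℤ)} (R : Set V)
    (h : ∀ g ∈ S, ∀ g' ∈ S', glu R g g' ∈ S) (h' : ∀ g ∈ S, ∀ g' ∈ S', glu R g' g ∈ S')
    (H : (V → ℤ) → ℝ) :
    (S'.card : ℝ) * ∑ g ∈ S, H g = ∑ g ∈ S, ∑ u ∈ S', H (glu R g u) := by
  have h1 : ∑ q ∈ S ×ˢ S', H (glu R q.1 q.2) = ∑ q ∈ S ×ˢ S', H q.1 := by
    refine Finset.sum_nbij' (fun q => (glu R q.1 q.2, glu R q.2 q.1))
      (fun q => (glu R q.1 q.2, glu R q.2 q.1)) ?_ ?_ ?_ ?_ ?_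
    · intro q hq
      rw [Finset.mem_product] at hq ⊢
      exact ⟨h _ hq.1 _ hq.2, h' _ hq.1 _ hq.2⟩
    · intro q hq
      rw [Finset.mem_product] at hq ⊢
      exact ⟨h _ hq.1 _ hq.2, h' _ hq.1 _ hq.2⟩
    · intro q _
      simp only [glu_glu]
    · intro q _
      simp only [glu_glu]
    · intro q _
      rfl
  rw [Finset.sum_product, Finset.sum_product] at h1
  rw [h1]
  simp only [Finset.sum_const, nsmul_eq_mul]
  rw [Finset.mul_sum]

/-- a decreasing event with one part frozen -/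
lemma dec_glu {E : (V → ℤ) → Prop} (hE : Dec E) (R : Set V) (g : V → ℤ) :
    Dec fun u => E (glu R g u) := by
  have key : ∀ u, absf (glu R g (absf u)) = absf (glu R g u) := by
    intro u
    funext v
    show |glu R g (absf u) v| = |glu R g u v|
    by_cases hv : v ∈ R
    · rw [glu_in hv, glu_in hv]
    · rw [glu_out hv, glu_out hv]
      exact abs_abs (u v)
  refine ⟨fun u => ?_, fun u u' h0 hle h => ?_⟩
  · show E (glu R g (absf u)) ↔ E (glu R g u)
    rw [← hE.abs, key, hE.abs]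
  · have h1 : E (glu R g u') := h
    show E (glu R g u)
    rw [← hE.abs] at h1 ⊢
    refine hE.mono _ _ (fun v => abs_nonneg _) (fun v => ?_) h1
    show |glu R g u v| ≤ |glu R g u' v|
    by_cases hv : v ∈ R
    · rw [glu_in hv, glu_in hv]
    · rw [glu_out hv, glu_out hv, abs_of_nonneg (h0 v), abs_of_nonneg ((h0 v).trans (hle v))]
      exact hle v

/-- Markov property, exploration from `Y`, with a decreasing event -/
theorem mk_dec {D : Finset V} {Y : Set V} (hY : Yᶜ ⊆ (D : Set V)) {A : Set V}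
    {F : (V → ℤ) → ℝ} (hF : ∀ g g' : V → ℤ, (∀ v ∈ A, g v = g' v) → F g = F g') (hN : Neg F)
    {E : (V → ℤ) → Prop} (hE : Dec E) (hEA : ∀ g ∈ Om D, E g → Disjoint A (rv Y g)) {c : ℝ}
    (h : ∀ U : Finset V, BdryPar U 0 → A ⊆ (U : Set V) → (U : Set V) ⊆ Yᶜ → avg (Om U) F ≤ c) :
    ∑ g ∈ Om D, ic E g * F g ≤ c * ∑ g ∈ Om D, ic E g := by
  classical
  set T := (Om D).filter fun g => Disjoint A (rv Y g) with hT
  have hred : ∀ G : (V → ℤ) → ℝ, ∑ g ∈ Om D, ic E g * G g = ∑ g ∈ T, ic E g * G g := by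
    intro G
    rw [hT, Finset.sum_filter]
    refine Finset.sum_congr rfl fun g hg => ?_
    by_cases h1 : Disjoint A (rv Y g)
    · rw [if_pos h1]
    · rw [if_neg h1]
      have h2 : ic E g = 0 := if_neg fun h2 => h1 (hEA g hg h2)
      rw [h2, zero_mul]
  have hred1 : ∑ g ∈ Om D, ic E g = ∑ g ∈ T, ic E g := by
    have := hred fun _ => 1
    simpa only [mul_one] using this
  rw [hred, hred1, Finset.mul_sum]
  rw [← Finset.sum_fiberwise_of_maps_to (s := T) (t := T.image (rv Y)) (g := rv Y)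
    (fun g hg => Finset.mem_image_of_mem _ hg) fun g => ic E g * F g,
    ← Finset.sum_fiberwise_of_maps_to (s := T)
    (t := T.image (rv Y)) (g := rv Y) (fun g hg => Finset.mem_image_of_mem _ hg) fun g => c * ic E g]
  refine Finset.sum_le_sum fun R hR => ?_
  obtain ⟨g₀, hg₀, hR₀⟩ := Finset.mem_image.1 hR
  set TR := T.filter fun g => rv Y g = R with hTR
  have hg₀' : g₀ ∈ TR := Finset.mem_filter.2 ⟨hg₀, hR₀⟩
  have hAR : Disjoint A R := hR₀ ▸ (Finset.mem_filter.1 hg₀).2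
  have hYR : Y ⊆ R := hR₀ ▸ sub_rv Y g₀
  have hfin : Rᶜ.Finite := D.finite_toSet.subset ((Set.compl_subset_compl.2 hYR).trans hY)
  obtain ⟨U, hU⟩ : ∃ U : Finset V, (U : Set V) = Rᶜ := ⟨hfin.toFinset, hfin.coe_toFinset⟩
  have hUc : (U : Set V)ᶜ = R := by rw [hU, compl_compl]
  have hUY : (U : Set V) ⊆ Yᶜ := by
    rw [hU]
    exact Set.compl_subset_compl.2 hYR
  have hUD : U ⊆ D := by
    intro v hv
    exact Finset.mem_coe.1 (hY (hUY (Finset.mem_coe.2 hv)))
  have hmem : ∀ v, v ∈ U ↔ v ∉ R := fun v => by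
    rw [← Finset.mem_coe, hU]
    rfl
  have hb0 : ∀ g ∈ TR, ∀ v ∈ bdry U, g v = 0 := by
    intro g hg v hv
    obtain ⟨h1, w, hw, hwU⟩ := mem_bdry.1 hv
    rw [hmem] at h1 hwU
    have h2 := (Finset.mem_filter.1 hg).2
    rw [← h2] at h1 hwU
    exact rv_zero (not_not.1 hwU) hw h1
  have hgS : ∀ g ∈ TR, g ∈ Om D := fun g hg =>
    (Finset.mem_filter.1 (Finset.mem_filter.1 hg).1).1
  have hS := locH_Om D
  have hpar : BdryPar U 0 := by
    intro v hv
    obtain ⟨h1, h2⟩ := mem_Om.1 (hS.rst U hUD g₀ (hgS g₀ hg₀') (hb0 g₀ hg₀'))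
    have h3 := h1.par v (bdry_subset U hv)
    rw [h2 v hv] at h3
    rw [Int.even_iff] at h3 ⊢
    omega
  have g1 : ∀ g ∈ TR, ∀ u ∈ Om U, glu R g u ∈ TR := by
    intro g hg u hu
    have h1 : rv Y (glu R g u) = R := by
      refine rv_glu (Finset.mem_filter.1 hg).2 fun v hv hvR => ?_
      rcases hv with hv | ⟨w, hw, hwv⟩
      · exact absurd hv hvR
      · exact (mem_Om.1 hu).2 v (mem_bdry.2 ⟨(hmem v).2 hvR, w, hwv, fun h2 => (hmem w).1 h2 hw⟩)
    refine Finset.mem_filter.2 ⟨Finset.mem_filter.2 ⟨?_, ?_⟩, h1⟩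
    · have h2 := hS.gl U hUD g (hgS g hg) (hb0 g hg) u hu
      rwa [hUc] at h2
    · rw [h1]
      exact hAR
  have g2 : ∀ g ∈ TR, ∀ u ∈ Om U, glu R u g ∈ Om U := by
    intro g hg u hu
    have h2 := hS.rst U hUD g (hgS g hg) (hb0 g hg)
    rw [hUc] at h2
    have h3 : glu R u g = glu R 0 g := by
      funext v
      by_cases hv : v ∈ R
      · rw [glu_in hv, glu_in hv]
        exact (mem_Om.1 hu).1.off v fun h4 => (hmem v).1 h4 hv
      · rw [glu_out hv, glu_out hv]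
    rw [h3]
    exact h2
  have hle := h U hpar (by rw [hU]; exact fun v hv => Set.disjoint_left.1 hAR hv) hUY
  have hcU : (0 : ℝ) < (Om U).card := by exact_mod_cast (Om_nonempty hpar).card_pos
  have s1 := sum_glu R g1 g2 fun g => ic E g * F g
  have s2 := sum_glu R g1 g2 fun g => ic E g
  have hFu : ∀ g u, F (glu R g u) = F u := fun g u => hF _ _ fun v hv =>
    glu_out (Set.disjoint_left.1 hAR hv)
  have s3 : ∑ g ∈ TR, ∑ u ∈ Om U, ic E (glu R g u) * F (glu R g u) ≤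
      c * ∑ g ∈ TR, ∑ u ∈ Om U, ic E (glu R g u) := by
    rw [Finset.mul_sum]
    refine Finset.sum_le_sum fun g _ => ?_
    have h1 := hN U (fun u => E (glu R g u)) (dec_glu hE R g)
    have h2 : ∑ u ∈ Om U, ic E (glu R g u) * F (glu R g u) =
        ∑ u ∈ Om U, ic (fun u => E (glu R g u)) u * F u :=
      Finset.sum_congr rfl fun u _ => by rw [hFu]; rfl
    rw [h2]
    refine h1.trans (mul_le_mul_of_nonneg_right hle (Finset.sum_nonneg fun u _ => ic_nonneg _ _))
  rw [← s1, ← s2] at s3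
  rw [← Finset.mul_sum]
  have s4 : ((Om U).card : ℝ) * ∑ g ∈ TR, ic E g * F g ≤
      (Om U).card * (c * ∑ g ∈ TR, ic E g) := by linarith
  exact le_of_mul_le_mul_left s4 hcU

section field

variable {n : ℕ} {δ R : ℝ} {f : Fin n → Pl → ℝ}

/-- the support of the family on the lattice -/
def ls (δ : ℝ) (f : Fin n → Pl → ℝ) : Set V := {x | ∃ i, mass δ (f i) x ≠ 0}

lemma X_congr {g g' : V → ℤ} (h : ∀ v ∈ ls δ f, g v = g' v) :
    ∏ i, Xd δ (f i) g = ∏ i, Xd δ (f i) g' := by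
  refine Finset.prod_congr rfl fun i _ => ?_
  unfold Xd
  refine tsum_congr fun x => ?_
  by_cases hx : mass δ (f i) x = 0
  · rw [hx, zero_mul, zero_mul]
  · rw [h x ⟨i, hx⟩]

lemma X_lo (hδ : 0 < δ) (hR : 0 ≤ R) (hf : ∀ i z, f i z ≠ 0 → |z.1| ≤ R ∧ |z.2| ≤ R) :
    (fun h : V → ℤ => ∏ i, Xd δ (f i) h) = fun h => ∏ i, lo (win δ R) (mass δ (f i)) h := by
  funext h
  exact Finset.prod_congr rfl fun i _ => Xd_lo hδ hR (hf i) h

theorem neg_X (hδ : 0 < δ) (hR : 0 ≤ R) (hf : ∀ i z, f i z ≠ 0 → |z.1| ≤ R ∧ |z.2| ≤ R)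
    (hf0 : ∀ i z, 0 ≤ f i z) : Neg fun h => ∏ i, Xd δ (f i) h := by
  rw [X_lo hδ hR hf]
  exact neg_lo _ fun i x => mass_nonneg δ (hf0 i) x

/-- the average of a function over a part of a family -/
lemma sum_part_le {S : Finset (V → ℤ)} (F : (V → ℤ) → ℝ) (E : (V → ℤ) → Prop) :
    (∑ g ∈ S, ic E g * F g) / S.card ≤ √(avg S fun g => F g ^ 2) * √(pr S E) := by
  classical
  rcases S.eq_empty_or_nonempty with h | h
  · rw [h]
    simp only [Finset.sum_empty, zero_div]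
    positivity
  have hc : (0 : ℝ) < S.card := by exact_mod_cast h.card_pos
  have h1 := Real.sum_mul_le_sqrt_mul_sqrt S F (ic E)
  have h2 : pr S E = (∑ g ∈ S, ic E g ^ 2) / S.card := by
    rw [pr_eq, Finset.card_filter]
    push_cast
    congr 1
    refine Finset.sum_congr rfl fun g _ => ?_
    unfold ic
    split_ifs <;> simp
  have h3 : (avg S fun g => F g ^ 2) = (∑ g ∈ S, F g ^ 2) / S.card := rfl
  rw [h2, h3, Real.sqrt_div (Finset.sum_nonneg fun g _ => sq_nonneg _),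
    Real.sqrt_div (Finset.sum_nonneg fun g _ => sq_nonneg _), div_mul_div_comm,
    Real.mul_self_sqrt hc.le]
  refine div_le_div_of_nonneg_right ?_ hc.le
  refine le_trans (le_of_eq ?_) h1
  exact Finset.sum_congr rfl fun g _ => mul_comm _ _

/-- (A), general form: `E` depends on the absolute values on `Z` -/
theorem avg_le_qt (hd : Deloc) (hn : Even n) (D : Finset V) {t : Finset V} {Z : Set V}
    {E : ℝ → (V → ℤ) → Prop}
    (hE : ∀ g g' : V → ℤ, (∀ v ∈ Z, |g v| = |g' v|) → E δ g → E δ g')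
    (hp : Pn t (cx (iw (E δ)))) (hpos : 0 < MR (iw (E δ)))
    (hδ : 0 < δ) (hR : 0 ≤ R) (hf : ∀ i z, f i z ≠ 0 → |z.1| ≤ R ∧ |z.2| ≤ R)
    (hf0 : ∀ i z, 0 ≤ f i z)
    (hq : 0 ≤ qt (fun δ => iw (E δ)) (fun δ h => ∏ i, Xd δ (f i) h) δ) :
    avg (Om D) (fun h => ∏ i, Xd δ (f i) h) ≤
      qt (fun δ => iw (E δ)) (fun δ h => ∏ i, Xd δ (f i) h) δ +
        √(avg (Om D) fun h => (∏ i, Xd δ (f i) h) ^ 2) *
          √(pr (Om D) fun g => ¬ Disjoint (ls δ f) (rv ((D : Set V)ᶜ ∪ Z) g)) := by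
  classical
  set F : (V → ℤ) → ℝ := fun h => ∏ i, Xd δ (f i) h with hF
  set q := qt (fun δ => iw (E δ)) (fun δ h => ∏ i, Xd δ (f i) h) δ with hqd
  set Y : Set V := (D : Set V)ᶜ ∪ Z with hYd
  rcases (Om D).eq_empty_or_nonempty with h0 | h0
  · have h1 : avg (Om D) F = 0 := by
      unfold avg
      rw [h0, Finset.sum_empty, zero_div]
    rw [h1]
    positivity
  have hc : (0 : ℝ) < (Om D).card := by exact_mod_cast h0.card_pos
  have hY : Yᶜ ⊆ (D : Set V) := by
    intro v hv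
    by_contra h
    exact hv (Or.inl h)
  have h1 := out_markov (locH_Om D) hY (A := ls δ f) (F := F) (fun g g' h => X_congr h) (c := q)
    fun U hU hAU hUY => by
      refine qt_lower_even hd hn hU (fun g g' h => hE g g' fun v hv => h v fun hc => ?_) hp hpos hδ hR
        hf hf0 fun i x hx => Finset.mem_coe.1 (hAU ⟨i, hx⟩)
      exact hUY (Finset.mem_coe.2 (Lo_core_mem.1 hc).1) (Or.inr hv)
  have e1 : ∀ g : V → ℤ, (if Disjoint (ls δ f) (rv Y g) then F g else 0) =
      F g - ic (fun g => ¬ Disjoint (ls δ f) (rv Y g)) g * F g := by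
    intro g
    unfold ic
    by_cases h : Disjoint (ls δ f) (rv Y g)
    · rw [if_pos h, if_neg (not_not.2 h)]
      ring
    · rw [if_neg h, if_pos h]
      ring
  have h2 : ∑ g ∈ Om D, (if Disjoint (ls δ f) (rv Y g) then (1 : ℝ) else 0) ≤ (Om D).card := by
    rw [Finset.card_eq_sum_ones]
    push_cast
    exact Finset.sum_le_sum fun g _ => by split_ifs <;> norm_num
  rw [Finset.sum_congr rfl fun g _ => e1 g, Finset.sum_sub_distrib] at h1
  have h3 := sum_part_le (S := Om D) F fun g => ¬ Disjoint (ls δ f) (rv Y g)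
  have h4 : avg (Om D) F = (∑ g ∈ Om D, F g) / (Om D).card := rfl
  have h5 : ∑ g ∈ Om D, F g ≤ q * (Om D).card +
      ∑ g ∈ Om D, ic (fun g => ¬ Disjoint (ls δ f) (rv Y g)) g * F g := by
    have := mul_le_mul_of_nonneg_left h2 hq
    linarith
  have h6 : (∑ g ∈ Om D, F g) / (Om D).card ≤ q +
      (∑ g ∈ Om D, ic (fun g => ¬ Disjoint (ls δ f) (rv Y g)) g * F g) / (Om D).card := by
    rw [div_le_iff₀ hc, add_mul, div_mul_cancel₀ _ hc.ne']
    exact h5
  rw [h4]
  exact h6.trans (by linarith)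

/-- union bound -/
lemma pr_le_sum {S : Finset (V → ℤ)} {ι : Type*} (P : Finset ι) {E : (V → ℤ) → Prop}
    {B : ι → (V → ℤ) → Prop} (h : ∀ g ∈ S, E g → ∃ p ∈ P, B p g) :
    pr S E ≤ ∑ p ∈ P, pr S (B p) := by
  classical
  unfold pr avg
  rw [← Finset.sum_div]
  refine div_le_div_of_nonneg_right ?_ (Nat.cast_nonneg _)
  rw [Finset.sum_comm]
  refine Finset.sum_le_sum fun g hg => ?_
  by_cases h1 : E g
  · obtain ⟨p, hp, hB⟩ := h g hg h1
    rw [if_pos h1]
    refine le_trans ?_ (Finset.single_le_sum (f := fun p => if B p g then (1 : ℝ) else 0)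
      (fun p _ => by positivity) hp)
    show (1 : ℝ) ≤ if B p g then 1 else 0
    rw [if_pos hB]
  · rw [if_neg h1]
    exact Finset.sum_nonneg fun p _ => by positivity

/-- a path from the dependence set to the support breaks one of the blocks -/
lemma reach_block {D : Finset V} {P : Finset Pl} {r R' : ℝ} (hr : r < R') {A Z : Set V}
    (hAD : A ⊆ (D : Set V)) (hA : ∀ p ∈ P, A ⊆ Out δ p R')
    (hZ : ∀ v ∈ Z, v ∈ D → ∃ p ∈ P, v ∈ Inn δ p r) {g : V → ℤ} (hg : g ∈ Om D)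
    (h : ¬ Disjoint A (rv ((D : Set V)ᶜ ∪ Z) g)) : ∃ p ∈ P, ¬ Bk 0 δ p r R' g := by
  have hlev : lev 0 g = g := by
    funext v
    unfold lev
    ring
  obtain ⟨hg1, hg2⟩ := mem_Om.1 hg
  rw [Set.not_disjoint_iff] at h
  obtain ⟨v, hvA, hv⟩ := h
  have hvD : v ∈ D := Finset.mem_coe.1 (hAD hvA)
  rcases hv with hv | ⟨u, hu, hc⟩
  · rcases hv with hv | hv
    · exact absurd (Finset.mem_coe.2 hvD) hv
    · obtain ⟨p, hp, h1⟩ := hZ v hv hvD
      have h2 : R' ≤ dist (pt δ v) p := hA p hp hvA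
      have h3 : dist (pt δ v) p ≤ r := h1
      linarith
  · have hu0 : g u ≠ 0 := hc.left
    have huD : u ∈ D := by
      by_contra h
      exact hu0 (hg1.off u h)
    have hub : u ∉ bdry D := fun h => hu0 (hg2 u h)
    have key : ∃ p ∈ P, u ∈ nb (Inn δ p r) := by
      rcases hu with (hu | hu) | ⟨w, hw | hw, hwu⟩
      · exact absurd (Finset.mem_coe.2 huD) hu
      · obtain ⟨p, hp, h1⟩ := hZ u hu huD
        exact ⟨p, hp, sub_nb _ h1⟩
      · exact absurd (mem_bdry.2 ⟨huD, w, hwu, fun h => hw (Finset.mem_coe.2 h)⟩) hub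
      · have hwD : w ∈ D := by
          by_contra h
          exact hub (mem_bdry.2 ⟨huD, w, hwu, h⟩)
        obtain ⟨p, hp, h1⟩ := hZ w hw hwD
        exact ⟨p, hp, Or.inr ⟨w, h1, hwu⟩⟩
    obtain ⟨p, hp, h1⟩ := key
    refine ⟨p, hp, fun hB => ?_⟩
    unfold Bk at hB
    rw [hlev] at hB
    exact hB u h1 v (sub_nb _ (hA p hp hvA)) hc

/-- (A): the even moments in a flat domain are bounded by those of the floating measure with weight `E`,
up to the probability that one of the blocks `Bk 0 δ p r R'` fails -/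
theorem avg_le_qt_blocks (hd : Deloc) (hn : Even n) (D : Finset V) {t : Finset V} {Z : Set V}
    {E : ℝ → (V → ℤ) → Prop}
    (hE : ∀ g g' : V → ℤ, (∀ v ∈ Z, |g v| = |g' v|) → E δ g → E δ g')
    (hp : Pn t (cx (iw (E δ)))) (hpos : 0 < MR (iw (E δ)))
    (hδ : 0 < δ) (hR : 0 ≤ R) (hf : ∀ i z, f i z ≠ 0 → |z.1| ≤ R ∧ |z.2| ≤ R)
    (hf0 : ∀ i z, 0 ≤ f i z)
    (hq : 0 ≤ qt (fun δ => iw (E δ)) (fun δ h => ∏ i, Xd δ (f i) h) δ)
    {P : Finset Pl} {r R' : ℝ} (hr : r < R') (hfD : ls δ f ⊆ (D : Set V))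
    (hfP : ∀ p ∈ P, ls δ f ⊆ Out δ p R') (hZ : ∀ v ∈ Z, v ∈ D → ∃ p ∈ P, v ∈ Inn δ p r) :
    avg (Om D) (fun h => ∏ i, Xd δ (f i) h) ≤
      qt (fun δ => iw (E δ)) (fun δ h => ∏ i, Xd δ (f i) h) δ +
        √(avg (Om D) fun h => (∏ i, Xd δ (f i) h) ^ 2) *
          √(∑ p ∈ P, pr (Om D) fun g => ¬ Bk 0 δ p r R' g) := by
  refine (avg_le_qt hd hn D hE hp hpos hδ hR hf hf0 hq).trans ?_
  have h1 : pr (Om D) (fun g => ¬ Disjoint (ls δ f) (rv ((D : Set V)ᶜ ∪ Z) g)) ≤
      ∑ p ∈ P, pr (Om D) fun g => ¬ Bk 0 δ p r R' g :=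
    pr_le_sum P fun g hg h => reach_block hr hfD hfP hZ hg h
  have h2 := mul_le_mul_of_nonneg_left (Real.sqrt_le_sqrt h1)
    (Real.sqrt_nonneg (avg (Om D) fun h => (∏ i, Xd δ (f i) h) ^ 2))
  linarith

end field

end WB
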