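import Pool.Agent.Helper86.WB.A

/-!
# Project DV, UP half with blocks (note 2645), (B): comparison of two floating measures

`EB T`: the blocks of the finite family `T` (centre, inner radius, outer radius) hold.
-/

open Finset RP4 Filter Topology
open GF (Pl)
open GF.Lat (Xd win Xd_eq)

namespace WB

open DV SW

/-- Markov property for the floating measure with a decreasing event which separates `X` and `A` -/
theorem M_dec (hd : Deloc) {X A : Set V} {s : Finset V} {E : (V → ℤ) → Prop} (hEd : Dec E)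
    (hEp : PR s (ic E)) (hAs : A ⊆ (s : Set V)) (hAX : Disjoint A X)
    {F : (V → ℤ) → ℝ} (hF : ∀ g g' : V → ℤ, (∀ v ∈ A, g v = g' v) → F g = F g') (hN : Neg F)
    (hsep : ∀ g, E g → DV.Sep X A g) {c : ℝ}
    (h : ∀ U : Finset V, BdryPar U 0 → A ⊆ (U : Set V) → (U : Set V) ⊆ Xᶜ → avg (Om U) F ≤ c) :
    Mr (fun g => ic E g * F g) ≤ c * Mr (ic E) := by
  have h1 := Mr_le_of hd (hEp.mul fun g g' hg => hF g g' fun v hv => hg v (Finset.mem_coe.1 (hAs hv)))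
    hEp (c := 1) (d := c) (by
      rw [RP4.eventually_dom]
      refine ⟨s, fun D hD _ => ?_⟩
      rw [one_mul]
      refine mk_dec (Y := (D : Set V)ᶜ ∪ X) (fun v hv => ?_) hF hN hEd (fun g hg hE => ?_)
        fun U hU hAU hUY => h U hU hAU fun v hv hvX => hUY hv (Or.inr hvX)
      · by_contra h
        exact hv (Or.inl h)
      · obtain ⟨hg1, hg2⟩ := mem_Om.1 hg
        rw [Set.disjoint_left]
        rintro v hvA ((hv | hv) | ⟨u, hu, hc⟩)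
        · exact hv (Finset.coe_subset.2 hD (hAs hvA))
        · exact Set.disjoint_left.1 hAX hvA hv
        · have hu0 : g u ≠ 0 := hc.left
          have huD : u ∈ D := by
            by_contra h
            exact hu0 (hg1.off u h)
          have hub : u ∉ bdry D := fun h => hu0 (hg2 u h)
          have hs := hsep g hE
          rcases hu with (hu | hu) | ⟨w, hw | hw, hwu⟩
          · exact hu (Finset.mem_coe.2 huD)
          · exact hs u (sub_nb _ hu) v (sub_nb _ hvA) hc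
          · exact hub (mem_bdry.2 ⟨huD, w, hwu, fun h => hw (Finset.mem_coe.2 h)⟩)
          · exact hs u (Or.inr ⟨w, hw, hwu⟩) v (sub_nb _ hvA) hc)
  rwa [one_mul] at h1

section field

variable {n : ℕ} {δ R : ℝ} {f : Fin n → Pl → ℝ}

lemma ls_win (hδ : 0 < δ) (hR : 0 ≤ R) (hf : ∀ i z, f i z ≠ 0 → |z.1| ≤ R ∧ |z.2| ≤ R) :
    ls δ f ⊆ (win δ R : Set V) := by
  rintro x ⟨i, hx⟩
  by_contra h
  exact hx (GF.Lat.mass_off hδ hR (hf i) fun h1 => h (Finset.mem_coe.2 h1))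

/-- (B), general form -/
theorem qt_le_qt (hd : Deloc) (hn : Even n) {s t : Finset V} {X : Set V}
    {E E' : ℝ → (V → ℤ) → Prop} (hEd : Dec (E δ)) (hEp : Pn s (cx (iw (E δ))))
    (hpos : 0 < MR (iw (E δ)))
    (hE' : ∀ g g' : V → ℤ, (∀ v ∈ X, |g v| = |g' v|) → E' δ g → E' δ g')
    (hEp' : Pn t (cx (iw (E' δ)))) (hpos' : 0 < MR (iw (E' δ)))
    (hAX : Disjoint (ls δ f) X) (hsep : ∀ g, E δ g → DV.Sep X (ls δ f) g)
    (hδ : 0 < δ) (hR : 0 ≤ R) (hf : ∀ i z, f i z ≠ 0 → |z.1| ≤ R ∧ |z.2| ≤ R)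
    (hf0 : ∀ i z, 0 ≤ f i z) :
    qt (fun δ => iw (E δ)) (fun δ h => ∏ i, Xd δ (f i) h) δ ≤
      qt (fun δ => iw (E' δ)) (fun δ h => ∏ i, Xd δ (f i) h) δ := by
  classical
  set c := qt (fun δ => iw (E' δ)) (fun δ h => ∏ i, Xd δ (f i) h) δ with hc
  have hP : PR (s ∪ win δ R) (ic (E δ)) := by
    have h1 : PR s (ic (E δ)) := hEp
    exact h1.mono Finset.subset_union_left
  have h1 := M_dec hd hEd hP (A := ls δ f) (X := X)
    ((ls_win hδ hR hf).trans (Finset.coe_subset.2 Finset.subset_union_right)) hAX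
    (F := fun h => ∏ i, Xd δ (f i) h) (fun g g' h => X_congr h) (neg_X hδ hR hf hf0) hsep (c := c)
    fun U hU hAU hUX => by
      refine qt_lower_even hd hn hU (fun g g' h => hE' g g' fun v hv => h v fun hc => ?_) hEp' hpos'
        hδ hR hf hf0 fun i x hx => Finset.mem_coe.1 (hAU ⟨i, hx⟩)
      exact hUX (Finset.mem_coe.2 (Lo_core_mem.1 hc).1) hv
  have h2 : MR (fun h => (∏ i, Xd δ (f i) h) * iw (E δ) h) =
      Mr (fun g => ic (E δ) g * ∏ i, Xd δ (f i) g) := by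
    unfold MR Mr cx
    congr 2
    funext g
    show (((∏ i, Xd δ (f i) g) * ic (E δ) g : ℝ) : ℂ) = ((ic (E δ) g * ∏ i, Xd δ (f i) g : ℝ) : ℂ)
    rw [mul_comm]
  have h3 : MR (iw (E δ)) = Mr (ic (E δ)) := rfl
  have h4 : qt (fun δ => iw (E δ)) (fun δ h => ∏ i, Xd δ (f i) h) δ =
      Mr (fun g => ic (E δ) g * ∏ i, Xd δ (f i) g) / Mr (ic (E δ)) := by
    rw [← h2, ← h3]
    rfl
  rw [h4, div_le_iff₀ (by rw [← h3]; exact hpos)]
  exact h1

end field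

/-- the blocks of the family `T` (centre, inner radius, outer radius) hold -/
def EB (T : Finset (Pl × ℝ × ℝ)) (δ : ℝ) (g : V → ℤ) : Prop :=
  ∀ q ∈ T, Bk 0 δ q.1 q.2.1 q.2.2 g

lemma lev0 (g : V → ℤ) : lev 0 g = g := by
  funext v
  unfold lev
  ring

lemma Bk0_iff {δ : ℝ} {z : Pl} {r s : ℝ} {g : V → ℤ} :
    Bk 0 δ z r s g ↔ DV.Sep (Inn δ z r) (Out δ z s) g := by
  unfold Bk
  rw [lev0]

lemma dec_Bk (δ : ℝ) (z : Pl) (r s : ℝ) : Dec (Bk 0 δ z r s) := by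
  have h : Bk 0 δ z r s = DV.Sep (Inn δ z r) (Out δ z s) := by
    funext g
    exact propext Bk0_iff
  rw [h]
  exact dec_sep _ _

lemma dec_EB (T : Finset (Pl × ℝ × ℝ)) (δ : ℝ) : Dec (EB T δ) := by
  refine ⟨fun g => ?_, fun g g' h0 hle h q hq => (dec_Bk δ q.1 q.2.1 q.2.2).mono g g' h0 hle (h q hq)⟩
  unfold EB
  exact forall₂_congr fun q _ => (dec_Bk δ q.1 q.2.1 q.2.2).abs g

/-- neighbours are at distance at most `δ` -/
lemma nb_Inn {δ : ℝ} (hδ : 0 < δ) {z : Pl} {r : ℝ} {v : V} (hv : v ∈ nb (Inn δ z r)) :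
    dist (pt δ v) z ≤ r + δ := by
  rcases hv with hv | ⟨u, hu, huv⟩
  · have h1 : dist (pt δ v) z ≤ r := hv
    linarith
  · have h1 : dist (pt δ u) z ≤ r := hu
    have h2 : dist (pt δ v) (pt δ u) ≤ δ := by
      unfold pt
      rw [Prod.dist_eq]
      refine max_le ?_ ?_
      · rw [Real.dist_eq]
        show |δ * (v.1 : ℝ) - δ * (u.1 : ℝ)| ≤ δ
        rw [← mul_sub, abs_mul, abs_of_pos hδ]
        have h3 : |(v.1 : ℝ) - u.1| ≤ 1 := by
          have h4 : |v.1 - u.1| ≤ 1 := by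
            unfold Adj at huv
            rw [abs_sub_comm]
            have := abs_nonneg (u.2 - v.2)
            omega
          exact_mod_cast h4
        nlinarith
      · rw [Real.dist_eq]
        show |δ * (v.2 : ℝ) - δ * (u.2 : ℝ)| ≤ δ
        rw [← mul_sub, abs_mul, abs_of_pos hδ]
        have h3 : |(v.2 : ℝ) - u.2| ≤ 1 := by
          have h4 : |v.2 - u.2| ≤ 1 := by
            unfold Adj at huv
            rw [abs_sub_comm]
            have := abs_nonneg (u.1 - v.1)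
            omega
          exact_mod_cast h4
        nlinarith
    linarith [dist_triangle (pt δ v) (pt δ u) z]

/-- a block depends on the absolute values inside its outer ball -/
lemma Bk_abs {δ : ℝ} (hδ : 0 < δ) {z : Pl} {r s : ℝ} (hrs : r + δ < s) {g g' : V → ℤ}
    (h : ∀ v, v ∉ Out δ z s → |g v| = |g' v|) (hB : Bk 0 δ z r s g) : Bk 0 δ z r s g' := by
  have h1 := (dec_Bk δ z r s).abs
  rw [← h1, Bk0_iff] at hB ⊢
  refine (sep_loc ?_ fun v hv => ?_).1 hB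
  · rw [Set.disjoint_left]
    intro v hv hvO
    have h2 := nb_Inn hδ hv
    have h3 : s ≤ dist (pt δ v) z := hvO
    linarith
  · exact h v hv

/-- the dependence set of the family -/
def dep (T : Finset (Pl × ℝ × ℝ)) (δ : ℝ) : Set V := {v | ∃ q ∈ T, v ∉ Out δ q.1 q.2.2}

lemma EB_abs {T : Finset (Pl × ℝ × ℝ)} {δ : ℝ} (hδ : 0 < δ) (hT : ∀ q ∈ T, q.2.1 + δ < q.2.2)
    {g g' : V → ℤ} (h : ∀ v ∈ dep T δ, |g v| = |g' v|) (hB : EB T δ g) : EB T δ g' :=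
  fun q hq => Bk_abs hδ (hT q hq) (fun v hv => h v ⟨q, hq, hv⟩) (hB q hq)

/-- the blocks of `T` separate the dependence set of the smaller family `T'` from the far sets -/
lemma EB_sep {T T' : Finset (Pl × ℝ × ℝ)} {δ : ℝ}
    (hTT : ∀ q' ∈ T', ∃ q ∈ T, q'.1 = q.1 ∧ q'.2.2 ≤ q.2.1) {A : Set V}
    (hA : ∀ q ∈ T, A ⊆ Out δ q.1 q.2.2) {g : V → ℤ} (hB : EB T δ g) : DV.Sep (dep T' δ) A g := by
  have key : ∀ v ∈ dep T' δ, ∃ q ∈ T, v ∈ Inn δ q.1 q.2.1 := by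
    rintro v ⟨q', hq', hv⟩
    obtain ⟨q, hq, h1, h2⟩ := hTT q' hq'
    refine ⟨q, hq, ?_⟩
    have h3 : ¬ q'.2.2 ≤ dist (pt δ v) q'.1 := hv
    show dist (pt δ v) q.1 ≤ q.2.1
    rw [← h1]
    linarith [not_le.1 h3]
  intro u hu v hv hc
  obtain ⟨q, hq, hu'⟩ : ∃ q ∈ T, u ∈ nb (Inn δ q.1 q.2.1) := by
    rcases hu with hu | ⟨w, hw, hwu⟩
    · obtain ⟨q, hq, h1⟩ := key u hu
      exact ⟨q, hq, sub_nb _ h1⟩
    · obtain ⟨q, hq, h1⟩ := key w hw
      exact ⟨q, hq, Or.inr ⟨w, h1, hwu⟩⟩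
  exact (Bk0_iff.1 (hB q hq)) u hu' v (nb_mono (hA q hq) hv) hc

section blocks

variable {n : ℕ} {δ R : ℝ} {f : Fin n → Pl → ℝ}

/-- (B): the floating measure with the blocks `T` is dominated by the one with the smaller blocks `T'` -/
theorem qt_EB_le (hd : Deloc) (hn : Even n) {s t : Finset V} {T T' : Finset (Pl × ℝ × ℝ)}
    (hp : Pn s (cx (iw (EB T δ)))) (hpos : 0 < MR (iw (EB T δ)))
    (hp' : Pn t (cx (iw (EB T' δ)))) (hpos' : 0 < MR (iw (EB T' δ)))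
    (hTT : ∀ q' ∈ T', ∃ q ∈ T, q'.1 = q.1 ∧ q'.2.2 ≤ q.2.1) (hT : ∀ q ∈ T, q.2.1 < q.2.2)
    (hT' : ∀ q ∈ T', q.2.1 + δ < q.2.2) (hA : ∀ q ∈ T, ls δ f ⊆ Out δ q.1 q.2.2)
    (hδ : 0 < δ) (hR : 0 ≤ R) (hf : ∀ i z, f i z ≠ 0 → |z.1| ≤ R ∧ |z.2| ≤ R)
    (hf0 : ∀ i z, 0 ≤ f i z) :
    qt (fun δ => iw (EB T δ)) (fun δ h => ∏ i, Xd δ (f i) h) δ ≤
      qt (fun δ => iw (EB T' δ)) (fun δ h => ∏ i, Xd δ (f i) h) δ := by
  refine qt_le_qt hd hn (X := dep T' δ) (dec_EB T δ) hp hpos (fun g g' h hB => EB_abs hδ hT' h hB)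
    hp' hpos' ?_ (fun g hB => EB_sep hTT hA hB) hδ hR hf hf0
  rw [Set.disjoint_left]
  rintro v hv ⟨q', hq', hv'⟩
  obtain ⟨q, hq, h1, h2⟩ := hTT q' hq'
  have h3 : q.2.2 ≤ dist (pt δ v) q.1 := hA q hq hv
  apply hv'
  show q'.2.2 ≤ dist (pt δ v) q'.1
  rw [h1]
  linarith [hT q hq]

/-- (A) for the family of blocks `T`: `P` the centres in the domain, `r` a bound of their outer radii -/
theorem avg_le_qt_EB (hd : Deloc) (hn : Even n) (D : Finset V) {t : Finset V}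
    {T : Finset (Pl × ℝ × ℝ)}
    (hp : Pn t (cx (iw (EB T δ)))) (hpos : 0 < MR (iw (EB T δ)))
    (hT : ∀ q ∈ T, q.2.1 + δ < q.2.2)
    (hδ : 0 < δ) (hR : 0 ≤ R) (hf : ∀ i z, f i z ≠ 0 → |z.1| ≤ R ∧ |z.2| ≤ R)
    (hf0 : ∀ i z, 0 ≤ f i z)
    (hq : 0 ≤ qt (fun δ => iw (EB T δ)) (fun δ h => ∏ i, Xd δ (f i) h) δ)
    {P : Finset Pl} {r R' : ℝ} (hr : r < R') (hfD : ls δ f ⊆ (D : Set V))
    (hfP : ∀ p ∈ P, ls δ f ⊆ Out δ p R')
    (hTP : ∀ q ∈ T, (q.1 ∈ P ∧ q.2.2 ≤ r) ∨ (D : Set V) ⊆ Out δ q.1 q.2.2) :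
    avg (Om D) (fun h => ∏ i, Xd δ (f i) h) ≤
      qt (fun δ => iw (EB T δ)) (fun δ h => ∏ i, Xd δ (f i) h) δ +
        √(avg (Om D) fun h => (∏ i, Xd δ (f i) h) ^ 2) *
          √(∑ p ∈ P, pr (Om D) fun g => ¬ Bk 0 δ p r R' g) := by
  refine avg_le_qt_blocks hd hn D (Z := dep T δ) (fun g g' h hB => EB_abs hδ hT h hB) hp hpos hδ hR hf
    hf0 hq hr hfD hfP ?_
  rintro v ⟨q, hq, hv⟩ hvD
  rcases hTP q hq with ⟨h1, h2⟩ | h1
  · refine ⟨q.1, h1, ?_⟩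
    have h3 : ¬ q.2.2 ≤ dist (pt δ v) q.1 := hv
    show dist (pt δ v) q.1 ≤ r
    linarith [not_le.1 h3]
  · exact absurd (h1 (Finset.mem_coe.2 hvD)) hv

end blocks

end WB
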